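import Mathlib

/-!
Project TF (MP_86f7a7_co).  Definitions and the exact statements of the leaf lemmas.
-/

set_option autoImplicit false

open scoped Pointwise

namespace Pool.Agent.W861.TF

/-- `x` is orthogonal to `a` modulo `p`. -/
def Orth (p : ℕ) {n : ℕ} (a : Fin n → ZMod p) (x : Fin n → ℤ) : Prop :=
  ∑ i, (x i : ZMod p) * a i = 0

/-- The group of all integer vectors orthogonal to `a` modulo `p`. -/
def Lam (p : ℕ) {n : ℕ} (a : Fin n → ZMod p) : AddSubgroup (Fin n → ℤ) where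
  carrier := {x | Orth p a x}
  add_mem' := by
    intro x y hx hy
    simp only [Set.mem_ofPred_eq, Orth] at hx hy ⊢
    simp [add_mul, Finset.sum_add_distrib, hx, hy]
  zero_mem' := by simp [Orth]
  neg_mem' := by
    intro x hx
    simp only [Set.mem_ofPred_eq, Orth] at hx ⊢
    simp [hx]

/-- The real vector of an integer vector. -/
def toR {ι : Type*} (x : ι → ℤ) : ι → ℝ := fun i => (x i : ℝ)

/-- Integer combination of the vectors `V i`. -/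
def comb {m n : ℕ} (k : Fin m → ℤ) (V : Fin m → Fin n → ℤ) : Fin n → ℤ := ∑ i, k i • V i

/-- The progression with base point `a`, directions `v` and lengths `N`. -/
def prog {G : Type*} [AddCommGroup G] {d : ℕ} (a : G) (v : Fin d → G) (N : Fin d → ℕ) : Set G :=
  {x | ∃ k : Fin d → ℕ, (∀ i, k i < N i) ∧ x = a + ∑ i, k i • v i}

/-- The points of the lattice `Lam p a` in the box of side `σ`. -/
def Abox (p : ℕ) {n : ℕ} (a : Fin n → ZMod p) (σ : ℕ) : Set (Lam p a) :=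
  {x | ∀ i, |(x : Fin n → ℤ) i| ≤ (σ : ℤ)}

/-- `V` has a shattered `h`-dimensional cube with alphabet width `L` and diameter `D`. -/
def HasCube (h L D : ℕ) {m n : ℕ} (V : Fin m → Fin n → ℤ) : Prop :=
  ∃ (e : Fin h → Fin m) (g : Fin h → Bool → ℤ) (s : (Fin h → Bool) → (Fin m → ℤ)),
    Function.Injective e ∧ (∀ l, g l false ≠ g l true) ∧ (∀ β l, s β (e l) = g l (β l)) ∧
    (∀ β γ i, |s β i - s γ i| ≤ (L : ℤ)) ∧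
    (∀ β γ j, |comb (fun i => s β i - s γ i) V j| ≤ (D : ℤ))

/-- (NP) Natarajan-Pajor bound. -/
def S_NP : Prop := ∀ (m h L : ℕ) (K : Finset (Fin m → Fin (L + 1))), 1 ≤ L →
  (¬ ∃ (e : Fin h → Fin m) (g : Fin h → Bool → Fin (L + 1)), Function.Injective e ∧
      (∀ l, g l false ≠ g l true) ∧ ∀ β : Fin h → Bool, ∃ k ∈ K, ∀ l, k (e l) = g l (β l)) →
  K.card ≤ 2 ^ m * (L + 1) ^ (2 * h)

/-- (HAD) symmetric-type Hadamard matrices. -/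
def S_HAD : Prop := ∀ τ : ℕ, ∃ H : Matrix (Fin (4 ^ τ)) (Fin (4 ^ τ)) ℤ,
  (∀ x l, H x l = 1 ∨ H x l = -1) ∧ H * H = ((4 ^ τ : ℕ) : ℤ) • (1 : Matrix _ _ ℤ)

/-- (HC) counting integer points in the preimage of a box under a Hadamard matrix. -/
def S_HC : Prop := ∀ (τ B : ℕ) (H : Matrix (Fin (4 ^ τ)) (Fin (4 ^ τ)) ℤ),
  H * H = ((4 ^ τ : ℕ) : ℤ) • (1 : Matrix _ _ ℤ) →
  ∀ (t : Fin (4 ^ τ) → ℝ) (T : Finset (Fin (4 ^ τ) → ℤ)),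
    (∀ w ∈ T, ∀ x, |(∑ l, (H x l : ℝ) * (w l : ℝ)) + t x| ≤ (B : ℝ)) →
    T.card * (2 ^ τ) ^ (4 ^ τ) ≤ (4 * B + 4 ^ τ) ^ (4 ^ τ)

/-- (MOD) number of solutions modulo `p` of independent bounded integer equations. -/
def S_MOD : Prop := ∀ (p n B : ℕ) [Fact p.Prime] (ι : Type) [Fintype ι] (y : ι → Fin n → ℤ),
  LinearIndependent ℝ (fun j => toR (y j)) → (∀ j i, |y j i| ≤ (B : ℤ)) →
  (Fintype.card ι).factorial * B ^ (Fintype.card ι) < p →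
  Set.ncard {a : Fin n → ZMod p | ∀ j, Orth p a (y j)} * p ^ (Fintype.card ι) ≤ p ^ n

/-- (ALG) symmetrisation (positive definiteness plus Cauchy-Schwarz). -/
def S_ALG : Prop := ∀ (s n m σ : ℕ), 1 ≤ s → 1 ≤ σ →
  ∀ (V : Fin (2 ^ s) → Fin m → Fin n → ℤ) (x : Fin n → ℤ),
  ∃ (b : Fin (2 ^ s)) (K : Finset (Fin m → Fin (2 ^ s + 1))),
    (∀ κ ∈ K, ∀ j, |(∑ i, (((κ i : ℕ) : ℤ) - 2 ^ (s - 1)) • V b i) j| ≤ 2 * (σ : ℤ)) ∧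
    Set.ncard {ε : Fin (2 ^ s) → Fin m → Fin 2 |
        ∀ j, |(x + ∑ b, ∑ i, ((ε b i : ℕ) : ℤ) • V b i) j| ≤ (σ : ℤ)} ≤
      2 ^ n * ∑ κ ∈ K, ∏ i, (2 ^ s).choose (κ i)

/-- (BB) the Bernoulli block bound. -/
def S_BB : Prop := ∀ (s n m h σ : ℕ), 1 ≤ s → 1 ≤ σ → m = 16 * h →
  ∀ (V : Fin (2 ^ s) → Fin m → Fin n → ℤ), (∀ b, ¬ HasCube h (2 ^ s) (4 * σ) (V b)) →
  ∀ x : Fin n → ℤ,
    Set.ncard {ε : Fin (2 ^ s) → Fin m → Fin 2 |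
        ∀ j, |(x + ∑ b, ∑ i, ((ε b i : ℕ) : ℤ) • V b i) j| ≤ (σ : ℤ)} * (2 ^ s + 1) ^ (6 * h) ≤
      2 ^ (2 ^ s * m) * 2 ^ (n + m)

/-- (CERT) certificate of a shattered cube. -/
def S_CERT : Prop := ∀ (h L m n D : ℕ) (H : Fin h → Fin h → ℤ) (V : Fin m → Fin n → ℤ),
  (∀ x l, H x l = 1 ∨ H x l = -1) →
  LinearIndependent ℝ (fun i => toR (V i)) → HasCube h L D V →
  ∃ (ρ : ℕ) (κ : Fin h → Fin m → ℤ) (y : Fin ρ → Fin m → ℤ) (k : Fin h → Fin m → ℤ),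
    h + ρ ≤ m ∧
    (∀ l i, |κ l i| ≤ (L : ℤ)) ∧ (∀ r i, |y r i| ≤ 2 * (L : ℤ)) ∧ (∀ x i, |k x i| ≤ (L : ℤ)) ∧
    (∀ x, toR (k x) - ∑ l, (H x l : ℝ) • toR (κ l) ∈
      Submodule.span ℝ (Set.range fun r => toR (y r))) ∧
    LinearIndependent ℝ (Sum.elim (fun l => toR (comb (κ l) V)) (fun r => toR (comb (y r) V))) ∧
    (∀ l j, |comb (κ l) V j| ≤ (D : ℤ)) ∧ (∀ r j, |comb (y r) V j| ≤ 2 * (D : ℤ)) ∧
    (∀ x j, |comb (k x) V j| ≤ (D : ℤ))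

/-- (CC) count of the bad `a` for one certificate. -/
def S_CC : Prop := ∀ (p τ n ρ D : ℕ) [Fact p.Prime] (H : Matrix (Fin (4 ^ τ)) (Fin (4 ^ τ)) ℤ)
  (α : Fin (4 ^ τ) → Fin ρ → ℝ),
  H * H = ((4 ^ τ : ℕ) : ℤ) • (1 : Matrix _ _ ℤ) →
  (4 ^ τ + ρ).factorial * (2 * D) ^ (4 ^ τ + ρ) < p →
  Set.ncard {a : Fin n → ZMod p | ∃ (w : Fin (4 ^ τ) → Fin n → ℤ) (z : Fin ρ → Fin n → ℤ),
      (∀ l, Orth p a (w l)) ∧ (∀ r, Orth p a (z r)) ∧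
      LinearIndependent ℝ (Sum.elim (fun l => toR (w l)) (fun r => toR (z r))) ∧
      (∀ l j, |w l j| ≤ (D : ℤ)) ∧ (∀ r j, |z r j| ≤ 2 * (D : ℤ)) ∧
      (∀ x j, |(∑ l, (H x l : ℝ) * (w l j : ℝ)) + ∑ r, α x r * (z r j : ℝ)| ≤ (D : ℝ))}
    * p ^ (4 ^ τ + ρ) * (2 ^ τ) ^ (4 ^ τ * n) ≤
  ((4 * D + 1) ^ ρ * (4 * D + 4 ^ τ) ^ (4 ^ τ)) ^ n * p ^ n

/-- (FM) first moment bound for the shattered cubes. -/
def S_FM : Prop := ∀ (p τ L R q : ℕ) [Fact p.Prime], 1 ≤ L → 1 ≤ R → 4 ^ τ ≤ q →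
  q ^ (48 * 4 ^ τ) ≤ p → 8 * R * (16 * 4 ^ τ) < q * q →
  Set.ncard {a : Fin (48 * 4 ^ τ) → ZMod p | ∃ V : Fin (16 * 4 ^ τ) → Fin (48 * 4 ^ τ) → ℤ,
      (∀ i, Orth p a (V i)) ∧ LinearIndependent ℝ (fun i => toR (V i)) ∧
      HasCube (4 ^ τ) L (4 * (R * q)) V}
    * (2 ^ τ) ^ (4 ^ τ * (48 * 4 ^ τ)) ≤
  (16 * 4 ^ τ + 1) * (4 * L + 1) ^ (2 * (16 * 4 ^ τ) * (16 * 4 ^ τ)) *
    (17 * R) ^ (16 * 4 ^ τ * (48 * 4 ^ τ)) * p ^ (48 * 4 ^ τ)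

/-- (SV) first moment bound for short vectors. -/
def S_SV : Prop := ∀ (p n q : ℕ) [Fact p.Prime], 4 ≤ q → 2 ≤ n → q ^ n ≤ p →
  Set.ncard {a : Fin n → ZMod p | ∃ x : Fin n → ℤ, Orth p a x ∧ x ≠ 0 ∧ ∀ i, 4 * |x i| ≤ (q : ℤ)}
    * 4 ^ n ≤ 3 ^ n * p ^ n

/-- (EX) existence of a good `a`. -/
def S_EX : Prop := ∀ (s R T0 : ℕ), 1 ≤ R → ∃ (τ q p : ℕ), T0 ≤ τ ∧ 1 ≤ q ∧ p.Prime ∧
  q ^ (48 * 4 ^ τ) ≤ p ∧ p ≤ 2 * q ^ (48 * 4 ^ τ) ∧ ∃ a : Fin (48 * 4 ^ τ) → ZMod p,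
   (∀ x : Fin (48 * 4 ^ τ) → ℤ, Orth p a x → x ≠ 0 → ∃ i, (q : ℤ) < 4 * |x i|) ∧
   (∀ V : Fin (16 * 4 ^ τ) → Fin (48 * 4 ^ τ) → ℤ, (∀ i, Orth p a (V i)) →
      LinearIndependent ℝ (fun i => toR (V i)) → ¬ HasCube (4 ^ τ) (2 ^ s) (4 * (R * q)) V)

/-- (PACK) volume packing in a section. -/
def S_PACK : Prop := ∀ (n R q : ℕ) (W : Submodule ℝ (Fin n → ℝ)) (T : Finset (Fin n → ℤ)),
  1 ≤ q → (∀ x ∈ T, ∀ i, |x i| ≤ (R : ℤ) * q) →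
  (∀ x ∈ T, ∀ y ∈ T, toR (x - y) ∈ W) →
  (∀ x ∈ T, ∀ y ∈ T, x ≠ y → ∃ i, (q : ℤ) < 4 * |x i - y i|) →
  T.card ≤ (16 * R + 1) ^ (Module.finrank ℝ W)

/-- (DB) finiteness, doubling and size of `Abox`. -/
def S_DB : Prop := ∀ (p n σ : ℕ) [NeZero p] (a : Fin n → ZMod p),
  (Abox p a σ).Finite ∧ (Abox p a σ).Nonempty ∧
  (Abox p a σ + Abox p a σ).ncard ≤ 5 ^ n * (Abox p a σ).ncard ∧
  (σ + 1) ^ n ≤ p * (Abox p a σ).ncard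

/-- (AVG1) averaging over long directions. -/
def S_AVG1 : Prop := ∀ (G : Type) [AddCommGroup G] (d m Hh : ℕ) (a : G) (v : Fin d → G)
  (N : Fin d → ℕ) (I : Fin m → Fin d) (F : Finset G), Function.Injective I →
  (∀ i, Hh ≤ N (I i)) → (F : Set G) ⊆ prog a v N →
  ∃ y : G, F.card * Hh ^ m ≤ 2 ^ m * (prog a v N).ncard *
    Set.ncard {k : Fin m → Fin Hh | y - ∑ i, ((k i : ℕ) : ℤ) • v (I i) ∈ F}

/-- (AVG2) averaging over short directions, all representations. -/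
def S_AVG2 : Prop := ∀ (G : Type) [AddCommGroup G] (ι : Type) [Fintype ι] (d : ℕ) (a : G)
  (v : Fin d → G) (N : Fin d → ℕ) (J : ι → Fin d) (F : Finset G), Function.Injective J →
  (∀ i, 2 ≤ N (J i)) → (F : Set G) ⊆ prog a v N →
  ∃ (y : G) (t : ι → ℤ), (∀ i, t i ≠ 0) ∧ F.card * 2 ^ (Fintype.card ι) ≤ (∏ i, N i) *
    Set.ncard {ε : ι → Fin 2 | y + ∑ i, ((ε i : ℕ) : ℤ) • (t i • v (J i)) ∈ F}

/-- (AVG3) averaging over short directions, inside `P + P`. -/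
def S_AVG3 : Prop := ∀ (G : Type) [AddCommGroup G] (ι : Type) [Fintype ι] (d : ℕ) (a : G)
  (v : Fin d → G) (N : Fin d → ℕ) (J : ι → Fin d) (F : Finset G), Function.Injective J →
  (∀ i, 2 ≤ N (J i)) → (F : Set G) ⊆ prog a v N →
  ∃ y : G, F.card * 2 ^ (Fintype.card ι) ≤ (prog a v N + prog a v N).ncard *
    Set.ncard {ε : ι → Fin 2 | y - ∑ i, ((ε i : ℕ) : ℤ) • v (J i) ∈ F}

/-- (GR) greedy choice of blocks. -/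
def S_GR : Prop := ∀ (E : Type) [AddCommGroup E] [Module ℝ E] [FiniteDimensional ℝ E]
  (d m B Hh : ℕ) (v : Fin d → E) (N : Fin d → ℕ), 2 ≤ Hh →
  (∃ I : Fin m → Fin d, Function.Injective I ∧ LinearIndependent ℝ (fun i => v (I i)) ∧
    ∀ i, Hh ≤ N (I i)) ∨
  (∃ J : Fin B → Fin m → Fin d, Function.Injective (fun x : Fin B × Fin m => J x.1 x.2) ∧
    (∀ b, LinearIndependent ℝ (fun i => v (J b i))) ∧ ∀ b i, 2 ≤ N (J b i)) ∨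
  (∃ S : Finset (Fin d), S.card ≤ B * m ∧ (∀ i ∈ S, N i < Hh) ∧
    Module.finrank ℝ (Submodule.span ℝ (v '' {i | i ∉ S ∧ 2 ≤ N i})) ≤ 2 * m)

/-- (C3) counting the points of `F` when most directions lie in a small subspace. -/
def S_C3 : Prop := ∀ (p n R q d Hh D : ℕ) (a : Fin n → ZMod p) (x0 : Lam p a)
  (v : Fin d → Lam p a) (N : Fin d → ℕ) (S : Finset (Fin d)) (F : Finset (Lam p a)),
  1 ≤ q → 1 ≤ Hh → (∀ x : Fin n → ℤ, Orth p a x → x ≠ 0 → ∃ i, (q : ℤ) < 4 * |x i|) →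
  (∀ x ∈ F, ∀ i, |(x : Fin n → ℤ) i| ≤ ((R * q : ℕ) : ℤ)) → (F : Set (Lam p a)) ⊆ prog x0 v N →
  (∀ i ∈ S, N i < Hh) →
  Module.finrank ℝ (Submodule.span ℝ
    ((fun i => toR (v i : Fin n → ℤ)) '' {i | i ∉ S ∧ 2 ≤ N i})) ≤ D →
  F.card ≤ Hh ^ S.card * (16 * R + 1) ^ D

end Pool.Agent.W861.TF
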