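import Pool.Agent.W861.TF.Stm

set_option autoImplicit false

open scoped Pointwise

namespace Pool.Agent.W861.TF

theorem central_sq (k : ℕ) : (Nat.centralBinom k) ^ 2 * (2 * k + 1) ≤ 16 ^ k := by
  induction k with
  | zero => simp [Nat.centralBinom]
  | succ k ih =>
    have h1 := Nat.succ_mul_centralBinom_succ k
    have h2 : (k + 1) ^ 2 * ((Nat.centralBinom (k + 1)) ^ 2 * (2 * (k + 1) + 1)) ≤
        (k + 1) ^ 2 * 16 ^ (k + 1) := by
      calc (k + 1) ^ 2 * ((Nat.centralBinom (k + 1)) ^ 2 * (2 * (k + 1) + 1))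
          = ((k + 1) * Nat.centralBinom (k + 1)) ^ 2 * (2 * (k + 1) + 1) := by ring
        _ = (2 * (2 * k + 1) * Nat.centralBinom k) ^ 2 * (2 * (k + 1) + 1) := by rw [h1]
        _ = (4 * (2 * k + 1) * (2 * k + 3)) * ((Nat.centralBinom k) ^ 2 * (2 * k + 1)) := by ring
        _ ≤ (4 * (2 * k + 1) * (2 * k + 3)) * 16 ^ k := Nat.mul_le_mul_left _ ih
        _ ≤ (16 * (k + 1) ^ 2) * 16 ^ k := by
            apply Nat.mul_le_mul_right
            nlinarith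
        _ = (k + 1) ^ 2 * 16 ^ (k + 1) := by ring
    exact Nat.le_of_mul_le_mul_left h2 (by positivity)

theorem choose_sq (s : ℕ) (hs : 1 ≤ s) (j : ℕ) :
    ((2 ^ s).choose j) ^ 2 * (2 ^ s + 1) ≤ 4 ^ (2 ^ s) := by
  obtain ⟨t, rfl⟩ : ∃ t, s = t + 1 := ⟨s - 1, by omega⟩
  have h1 : (2 ^ (t + 1)).choose j ≤ Nat.centralBinom (2 ^ t) := by
    have := Nat.choose_le_middle j (2 ^ (t + 1))
    have h2 : 2 ^ (t + 1) / 2 = 2 ^ t := by
      rw [pow_succ]; simp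
    rw [h2] at this
    rw [Nat.centralBinom]
    rwa [show 2 * 2 ^ t = 2 ^ (t + 1) by ring]
  have h3 := central_sq (2 ^ t)
  calc ((2 ^ (t + 1)).choose j) ^ 2 * (2 ^ (t + 1) + 1)
      ≤ (Nat.centralBinom (2 ^ t)) ^ 2 * (2 ^ (t + 1) + 1) :=
        Nat.mul_le_mul_right _ (Nat.pow_le_pow_left h1 2)
    _ = (Nat.centralBinom (2 ^ t)) ^ 2 * (2 * 2 ^ t + 1) := by ring
    _ ≤ 16 ^ (2 ^ t) := h3
    _ = 4 ^ (2 ^ (t + 1)) := by
        rw [show (16 : ℕ) = 4 ^ 2 by norm_num, ← pow_mul]; congr 1; ring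

theorem bb (ha : S_ALG) (hn : S_NP) : S_BB := by
  intro s n m h σ hs hσ hm V hV x
  obtain ⟨b, K, hK1, hK2⟩ := ha s n m σ hs hσ V x
  have hcard : K.card ≤ 2 ^ m * (2 ^ s + 1) ^ (2 * h) := by
    apply hn m h (2 ^ s) K Nat.one_le_two_pow
    rintro ⟨e, g, he, hg, hs'⟩
    choose k hk1 hk2 using hs'
    apply hV b
    refine ⟨e, fun l β => ((g l β : ℕ) : ℤ), fun β i => ((k β i : ℕ) : ℤ), he, ?_, ?_, ?_, ?_⟩
    · intro l hl
      apply hg l
      apply Fin.ext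
      have hl' : ((g l false : ℕ) : ℤ) = ((g l true : ℕ) : ℤ) := hl
      exact_mod_cast hl'
    · intro β l
      simp only
      rw [hk2 β l]
    · intro β γ i
      have h1 : ((k β i : ℕ) : ℤ) ≤ ((2 ^ s : ℕ) : ℤ) := by
        exact_mod_cast Nat.lt_succ_iff.mp (k β i).isLt
      have h2 : ((k γ i : ℕ) : ℤ) ≤ ((2 ^ s : ℕ) : ℤ) := by
        exact_mod_cast Nat.lt_succ_iff.mp (k γ i).isLt
      have h3 : (0 : ℤ) ≤ ((k β i : ℕ) : ℤ) := Int.natCast_nonneg _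
      have h4 : (0 : ℤ) ≤ ((k γ i : ℕ) : ℤ) := Int.natCast_nonneg _
      rw [abs_le]
      constructor <;> linarith
    · intro β γ j
      have h1 := hK1 _ (hk1 β) j
      have h2 := hK1 _ (hk1 γ) j
      have h3 : comb (fun i => ((k β i : ℕ) : ℤ) - ((k γ i : ℕ) : ℤ)) (V b) =
          (∑ i, (((k β i : ℕ) : ℤ) - 2 ^ (s - 1)) • V b i) -
          ∑ i, (((k γ i : ℕ) : ℤ) - 2 ^ (s - 1)) • V b i := by
        rw [comb, ← Finset.sum_sub_distrib]
        apply Finset.sum_congr rfl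
        intro i _
        rw [← sub_smul]
        congr 1
        ring
      rw [h3, Pi.sub_apply]
      rw [abs_le] at h1 h2 ⊢
      push_cast
      constructor <;> linarith [h1.1, h1.2, h2.1, h2.2]
  set c := (2 ^ s).choose (2 ^ s / 2) with hc
  have hsum : ∑ κ ∈ K, ∏ i, (2 ^ s).choose (κ i) ≤ K.card * c ^ m := by
    calc ∑ κ ∈ K, ∏ i, (2 ^ s).choose (κ i) ≤ ∑ κ ∈ K, c ^ m := by
          apply Finset.sum_le_sum
          intro κ _
          calc ∏ i, (2 ^ s).choose (κ i) ≤ ∏ _i : Fin m, c := by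
                apply Finset.prod_le_prod'
                intro i _
                exact Nat.choose_le_middle _ _
            _ = c ^ m := by simp
      _ = K.card * c ^ m := by simp
  have hcs : c ^ 2 * (2 ^ s + 1) ≤ 4 ^ (2 ^ s) := choose_sq s hs _
  have hcs2 : c ^ m * (2 ^ s + 1) ^ (8 * h) ≤ 2 ^ (2 ^ s * m) := by
    calc c ^ m * (2 ^ s + 1) ^ (8 * h) = (c ^ 2 * (2 ^ s + 1)) ^ (8 * h) := by
          rw [mul_pow, ← pow_mul]; congr 2; omega
      _ ≤ (4 ^ (2 ^ s)) ^ (8 * h) := Nat.pow_le_pow_left hcs _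
      _ = 2 ^ (2 ^ s * m) := by
          rw [show (4 : ℕ) = 2 ^ 2 by norm_num, ← pow_mul, ← pow_mul]; congr 1; rw [hm]; ring
  set X := Set.ncard {ε : Fin (2 ^ s) → Fin m → Fin 2 |
        ∀ j, |(x + ∑ b, ∑ i, ((ε b i : ℕ) : ℤ) • V b i) j| ≤ (σ : ℤ)} with hX
  calc X * (2 ^ s + 1) ^ (6 * h)
      ≤ (2 ^ n * ((2 ^ m * (2 ^ s + 1) ^ (2 * h)) * c ^ m)) * (2 ^ s + 1) ^ (6 * h) := by
        apply Nat.mul_le_mul_right
        refine hK2.trans (Nat.mul_le_mul_left _ (hsum.trans ?_))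
        exact Nat.mul_le_mul_right _ hcard
    _ = 2 ^ (n + m) * (c ^ m * (2 ^ s + 1) ^ (8 * h)) := by
        rw [pow_add, show 8 * h = 2 * h + 6 * h by ring, pow_add]; ring
    _ ≤ 2 ^ (n + m) * 2 ^ (2 ^ s * m) := Nat.mul_le_mul_left _ hcs2
    _ = 2 ^ (2 ^ s * m) * 2 ^ (n + m) := by ring

end Pool.Agent.W861.TF
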