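import Pool.Agent.W861.TF.Stm

set_option autoImplicit false

open scoped Pointwise

namespace Pool.Agent.W861.TF

theorem toR_zsmul {n : ℕ} (c : ℤ) (x : Fin n → ℤ) : toR (c • x) = (c : ℝ) • toR x := by
  funext i
  simp [toR]

/-- scaling a real-independent integer family by nonzero integers keeps it independent. -/
theorem li_scale {n : ℕ} {ι : Type*} (V : ι → Fin n → ℤ) (c : ι → ℤ) (hc : ∀ i, c i ≠ 0)
    (hV : LinearIndependent ℝ (fun i => toR (V i))) :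
    LinearIndependent ℝ (fun i => toR (c i • V i)) := by
  have h := hV.units_smul (fun i => Units.mk0 ((c i : ℤ) : ℝ) (by exact_mod_cast hc i))
  convert h using 1
  funext i
  rw [toR_zsmul]
  rfl

section
variable {p τ s R q : ℕ}

theorem bbset (hbb : S_BB) (hs : 1 ≤ s) (hR : 1 ≤ R) (hq : 1 ≤ q)
    (a : Fin (48 * 4 ^ τ) → ZMod p)
    (hsb : ∀ V : Fin (16 * 4 ^ τ) → Fin (48 * 4 ^ τ) → ℤ, (∀ i, Orth p a (V i)) →
      LinearIndependent ℝ (fun i => toR (V i)) → ¬ HasCube (4 ^ τ) (2 ^ s) (4 * (R * q)) V)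
    (V : Fin (2 ^ s) → Fin (16 * 4 ^ τ) → Lam p a)
    (hV : ∀ b, LinearIndependent ℝ (fun i => toR (V b i : Fin (48 * 4 ^ τ) → ℤ)))
    (x : Lam p a) :
    Set.ncard {ε : Fin (2 ^ s) → Fin (16 * 4 ^ τ) → Fin 2 |
        (x + ∑ b, ∑ i, ((ε b i : ℕ) : ℤ) • V b i) ∈ Abox p a (R * q)} *
      (2 ^ s + 1) ^ (6 * 4 ^ τ) ≤
      2 ^ (2 ^ s * (16 * 4 ^ τ)) * 2 ^ (48 * 4 ^ τ + 16 * 4 ^ τ) := by
  have h := hbb s (48 * 4 ^ τ) (16 * 4 ^ τ) (4 ^ τ) (R * q) hs (Nat.mul_pos hR hq) rfl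
    (fun b i => (V b i : Fin (48 * 4 ^ τ) → ℤ)) (fun b => hsb _ (fun i => (V b i).2) (hV b))
    (x : Fin (48 * 4 ^ τ) → ℤ)
  convert h using 4
  ext ε
  simp only [Abox, Set.mem_ofPred_eq]
  have : ((x + ∑ b, ∑ i, ((ε b i : ℕ) : ℤ) • V b i : Lam p a) : Fin (48 * 4 ^ τ) → ℤ) =
      (x : Fin (48 * 4 ^ τ) → ℤ) + ∑ b, ∑ i, ((ε b i : ℕ) : ℤ) • (V b i : Fin (48 * 4 ^ τ) → ℤ) := by
    push_cast
    rfl
  rw [this]

theorem core (hbb : S_BB) (h1 : S_AVG1) (h2 : S_AVG2) (h3 : S_AVG3) (hg : S_GR) (hc : S_C3)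
    (hs : 1 ≤ s) (hR : 1 ≤ R) (hq : 1 ≤ q)
    (a : Fin (48 * 4 ^ τ) → ZMod p)
    (hsv : ∀ x : Fin (48 * 4 ^ τ) → ℤ, Orth p a x → x ≠ 0 → ∃ i, (q : ℤ) < 4 * |x i|)
    (hsb : ∀ V : Fin (16 * 4 ^ τ) → Fin (48 * 4 ^ τ) → ℤ, (∀ i, Orth p a (V i)) →
      LinearIndependent ℝ (fun i => toR (V i)) → ¬ HasCube (4 ^ τ) (2 ^ s) (4 * (R * q)) V)
    (d : ℕ) (x0 : Lam p a) (v : Fin d → Lam p a) (N : Fin d → ℕ) (F : Finset (Lam p a))
    (hF : (F : Set (Lam p a)) ⊆ prog x0 v N) (hFA : (F : Set (Lam p a)) ⊆ Abox p a (R * q)) :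
    (F.card * (2 ^ s + 1) ^ (6 * 4 ^ τ) ≤
      2 ^ (48 * 4 ^ τ + 2 * (16 * 4 ^ τ)) * (prog x0 v N).ncard) ∨
    ((F.card * (2 ^ s + 1) ^ (6 * 4 ^ τ) ≤ 2 ^ (48 * 4 ^ τ + 16 * 4 ^ τ) * ∏ i, N i) ∧
     (F.card * (2 ^ s + 1) ^ (6 * 4 ^ τ) ≤
        2 ^ (48 * 4 ^ τ + 16 * 4 ^ τ) * (prog x0 v N + prog x0 v N).ncard)) ∨
    F.card ≤ (2 ^ (2 ^ s)) ^ (2 ^ s * (16 * 4 ^ τ)) * (16 * R + 1) ^ (2 * (16 * 4 ^ τ)) := by
  have hH : 2 ≤ 2 ^ (2 ^ s) := by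
    calc 2 = 2 ^ 1 := by norm_num
      _ ≤ 2 ^ (2 ^ s) := Nat.pow_le_pow_right (by norm_num) Nat.one_le_two_pow
  rcases hg (Fin (48 * 4 ^ τ) → ℝ) d (16 * 4 ^ τ) (2 ^ s) (2 ^ (2 ^ s))
    (fun i => toR (v i : Fin (48 * 4 ^ τ) → ℤ)) N hH with
    ⟨I, hI1, hI2, hI3⟩ | ⟨J, hJ1, hJ2, hJ3⟩ | ⟨S, hS1, hS2, hS3⟩
  · left
    obtain ⟨y, hy⟩ := h1 (Lam p a) d (16 * 4 ^ τ) (2 ^ (2 ^ s)) x0 v N I F hI1 hI3 hF
    have hb := bbset hbb hs hR hq a hsb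
      (fun (b : Fin (2 ^ s)) i => (-(2 ^ (b : ℕ)) : ℤ) • v (I i)) (by
        intro b
        have := li_scale (fun i => (v (I i) : Fin (48 * 4 ^ τ) → ℤ)) (fun _ => (-(2 ^ (b : ℕ)) : ℤ))
          (by intro i; simp) hI2
        convert this using 2
        rfl) y
    have hle : Set.ncard {k : Fin (16 * 4 ^ τ) → Fin (2 ^ (2 ^ s)) |
          y - ∑ i, ((k i : ℕ) : ℤ) • v (I i) ∈ F} ≤
        Set.ncard {ε : Fin (2 ^ s) → Fin (16 * 4 ^ τ) → Fin 2 |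
          (y + ∑ b, ∑ i, ((ε b i : ℕ) : ℤ) • ((-(2 ^ (b : ℕ)) : ℤ) • v (I i))) ∈
            Abox p a (R * q)} := by
      apply Set.ncard_le_ncard_of_injOn
        (fun (k : Fin (16 * 4 ^ τ) → Fin (2 ^ (2 ^ s))) =>
          fun (b : Fin (2 ^ s)) (i : Fin (16 * 4 ^ τ)) => (finFunctionFinEquiv.symm (k i)) b)
      · intro k hk
        simp only [Set.mem_ofPred_eq] at hk ⊢
        apply hFA
        have : (y + ∑ b : Fin (2 ^ s), ∑ i, (((finFunctionFinEquiv.symm (k i)) b : ℕ) : ℤ) •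
            ((-(2 ^ (b : ℕ)) : ℤ) • v (I i))) = y - ∑ i, ((k i : ℕ) : ℤ) • v (I i) := by
          rw [sub_eq_add_neg, ← Finset.sum_neg_distrib, Finset.sum_comm]
          congr 1
          apply Finset.sum_congr rfl
          intro i _
          have hk2 : (k i : ℕ) = ∑ b : Fin (2 ^ s),
              ((finFunctionFinEquiv.symm (k i)) b : ℕ) * 2 ^ (b : ℕ) := by
            conv_lhs => rw [← finFunctionFinEquiv.apply_symm_apply (k i)]
            rw [finFunctionFinEquiv_apply]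
          simp_rw [smul_smul]
          rw [← Finset.sum_smul]
          rw [← neg_smul]
          congr 1
          rw [hk2]
          push_cast
          rw [← Finset.sum_neg_distrib]
          apply Finset.sum_congr rfl
          intro b _
          ring
        rw [this]
        exact hk
      · intro k _ k' _ hkk
        funext i
        have : finFunctionFinEquiv.symm (k i) = finFunctionFinEquiv.symm (k' i) := by
          funext b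
          exact congrFun (congrFun hkk b) i
        exact finFunctionFinEquiv.symm.injective this
    have hpos : 0 < (2 ^ (2 ^ s)) ^ (16 * 4 ^ τ) := by positivity
    apply Nat.le_of_mul_le_mul_left _ hpos
    calc (2 ^ (2 ^ s)) ^ (16 * 4 ^ τ) * (F.card * (2 ^ s + 1) ^ (6 * 4 ^ τ))
        = (F.card * (2 ^ (2 ^ s)) ^ (16 * 4 ^ τ)) * (2 ^ s + 1) ^ (6 * 4 ^ τ) := by ring
      _ ≤ (2 ^ (16 * 4 ^ τ) * (prog x0 v N).ncard * Set.ncard {k : Fin (16 * 4 ^ τ) →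
            Fin (2 ^ (2 ^ s)) | y - ∑ i, ((k i : ℕ) : ℤ) • v (I i) ∈ F}) *
            (2 ^ s + 1) ^ (6 * 4 ^ τ) := Nat.mul_le_mul_right _ hy
      _ ≤ (2 ^ (16 * 4 ^ τ) * (prog x0 v N).ncard * Set.ncard {ε : Fin (2 ^ s) →
            Fin (16 * 4 ^ τ) → Fin 2 |
          (y + ∑ b, ∑ i, ((ε b i : ℕ) : ℤ) • ((-(2 ^ (b : ℕ)) : ℤ) • v (I i))) ∈
            Abox p a (R * q)}) *
            (2 ^ s + 1) ^ (6 * 4 ^ τ) :=
          Nat.mul_le_mul_right _ (Nat.mul_le_mul_left _ hle)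
      _ = (2 ^ (16 * 4 ^ τ) * (prog x0 v N).ncard) * (Set.ncard {ε : Fin (2 ^ s) →
            Fin (16 * 4 ^ τ) → Fin 2 |
          (y + ∑ b, ∑ i, ((ε b i : ℕ) : ℤ) • ((-(2 ^ (b : ℕ)) : ℤ) • v (I i))) ∈
            Abox p a (R * q)} * (2 ^ s + 1) ^ (6 * 4 ^ τ)) := by ring
      _ ≤ (2 ^ (16 * 4 ^ τ) * (prog x0 v N).ncard) *
            (2 ^ (2 ^ s * (16 * 4 ^ τ)) * 2 ^ (48 * 4 ^ τ + 16 * 4 ^ τ)) :=
          Nat.mul_le_mul_left _ hb
      _ = (2 ^ (2 ^ s)) ^ (16 * 4 ^ τ) *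
            (2 ^ (48 * 4 ^ τ + 2 * (16 * 4 ^ τ)) * (prog x0 v N).ncard) := by
          rw [← pow_mul 2 (2 ^ s) (16 * 4 ^ τ), show 48 * 4 ^ τ + 2 * (16 * 4 ^ τ) =
            16 * 4 ^ τ + (48 * 4 ^ τ + 16 * 4 ^ τ) by ring,
            pow_add 2 (16 * 4 ^ τ) (48 * 4 ^ τ + 16 * 4 ^ τ)]
          ring
  · right; left
    have hcard : Fintype.card (Fin (2 ^ s) × Fin (16 * 4 ^ τ)) = 2 ^ s * (16 * 4 ^ τ) := by simp
    have hpos : 0 < 2 ^ (2 ^ s * (16 * 4 ^ τ)) := by positivity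
    have hcurry : ∀ (y : Lam p a) (c : Fin (2 ^ s) → Fin (16 * 4 ^ τ) → Lam p a),
        Set.ncard {ε : Fin (2 ^ s) × Fin (16 * 4 ^ τ) → Fin 2 |
          y + ∑ x, ((ε x : ℕ) : ℤ) • c x.1 x.2 ∈ F} ≤
        Set.ncard {ε : Fin (2 ^ s) → Fin (16 * 4 ^ τ) → Fin 2 |
          (y + ∑ b, ∑ i, ((ε b i : ℕ) : ℤ) • c b i) ∈ Abox p a (R * q)} := by
      intro y c
      apply Set.ncard_le_ncard_of_injOn
        (fun (ε : Fin (2 ^ s) × Fin (16 * 4 ^ τ) → Fin 2) => fun b i => ε (b, i))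
      · intro ε hε
        simp only [Set.mem_ofPred_eq] at hε ⊢
        apply hFA
        rw [Fintype.sum_prod_type] at hε
        exact hε
      · intro ε _ ε' _ h
        funext x
        exact congrFun (congrFun h x.1) x.2
    constructor
    · obtain ⟨y, t, ht, hy⟩ := h2 (Lam p a) (Fin (2 ^ s) × Fin (16 * 4 ^ τ)) d x0 v N
        (fun x => J x.1 x.2) F hJ1 (fun x => hJ3 _ _) hF
      have hb := bbset hbb hs hR hq a hsb
        (fun (b : Fin (2 ^ s)) i => t (b, i) • v (J b i)) (by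
          intro b
          have := li_scale (fun i => (v (J b i) : Fin (48 * 4 ^ τ) → ℤ)) (fun i => t (b, i))
            (fun i => ht _) (hJ2 b)
          convert this using 2
          rfl) y
      have hle := hcurry y (fun b i => t (b, i) • v (J b i))
      rw [hcard] at hy
      apply Nat.le_of_mul_le_mul_left _ hpos
      calc 2 ^ (2 ^ s * (16 * 4 ^ τ)) * (F.card * (2 ^ s + 1) ^ (6 * 4 ^ τ))
          = (F.card * 2 ^ (2 ^ s * (16 * 4 ^ τ))) * (2 ^ s + 1) ^ (6 * 4 ^ τ) := by ring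
        _ ≤ ((∏ i, N i) * _) * (2 ^ s + 1) ^ (6 * 4 ^ τ) := Nat.mul_le_mul_right _ hy
        _ ≤ ((∏ i, N i) * _) * (2 ^ s + 1) ^ (6 * 4 ^ τ) :=
            Nat.mul_le_mul_right _ (Nat.mul_le_mul_left _ hle)
        _ = (∏ i, N i) * (_ * (2 ^ s + 1) ^ (6 * 4 ^ τ)) := by rw [mul_assoc]
        _ ≤ (∏ i, N i) * (2 ^ (2 ^ s * (16 * 4 ^ τ)) * 2 ^ (48 * 4 ^ τ + 16 * 4 ^ τ)) :=
            Nat.mul_le_mul_left _ hb
        _ = _ := by ring
    · obtain ⟨y, hy⟩ := h3 (Lam p a) (Fin (2 ^ s) × Fin (16 * 4 ^ τ)) d x0 v N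
        (fun x => J x.1 x.2) F hJ1 (fun x => hJ3 _ _) hF
      have hb := bbset hbb hs hR hq a hsb
        (fun (b : Fin (2 ^ s)) i => (-1 : ℤ) • v (J b i)) (by
          intro b
          have := li_scale (fun i => (v (J b i) : Fin (48 * 4 ^ τ) → ℤ)) (fun i => (-1 : ℤ))
            (fun i => by norm_num) (hJ2 b)
          convert this using 2
          rfl) y
      have hle := hcurry y (fun b i => (-1 : ℤ) • v (J b i))
      rw [hcard] at hy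
      have hset : {ε : Fin (2 ^ s) × Fin (16 * 4 ^ τ) → Fin 2 |
          y - ∑ x, ((ε x : ℕ) : ℤ) • v (J x.1 x.2) ∈ F} =
          {ε : Fin (2 ^ s) × Fin (16 * 4 ^ τ) → Fin 2 |
          y + ∑ x, ((ε x : ℕ) : ℤ) • ((-1 : ℤ) • v (J x.1 x.2)) ∈ F} := by
        ext ε
        simp only [Set.mem_ofPred_eq]
        rw [sub_eq_add_neg, ← Finset.sum_neg_distrib]
        simp
      rw [hset] at hy
      apply Nat.le_of_mul_le_mul_left _ hpos
      calc 2 ^ (2 ^ s * (16 * 4 ^ τ)) * (F.card * (2 ^ s + 1) ^ (6 * 4 ^ τ))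
          = (F.card * 2 ^ (2 ^ s * (16 * 4 ^ τ))) * (2 ^ s + 1) ^ (6 * 4 ^ τ) := by ring
        _ ≤ ((prog x0 v N + prog x0 v N).ncard * _) * (2 ^ s + 1) ^ (6 * 4 ^ τ) :=
            Nat.mul_le_mul_right _ hy
        _ ≤ ((prog x0 v N + prog x0 v N).ncard * _) * (2 ^ s + 1) ^ (6 * 4 ^ τ) :=
            Nat.mul_le_mul_right _ (Nat.mul_le_mul_left _ hle)
        _ = (prog x0 v N + prog x0 v N).ncard * (_ * (2 ^ s + 1) ^ (6 * 4 ^ τ)) := by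
            rw [mul_assoc]
        _ ≤ (prog x0 v N + prog x0 v N).ncard *
              (2 ^ (2 ^ s * (16 * 4 ^ τ)) * 2 ^ (48 * 4 ^ τ + 16 * 4 ^ τ)) :=
            Nat.mul_le_mul_left _ hb
        _ = _ := by ring
  · right; right
    have := hc p (48 * 4 ^ τ) R q d (2 ^ (2 ^ s)) (2 * (16 * 4 ^ τ)) a x0 v N S F hq
      Nat.one_le_two_pow hsv (fun x hx => hFA hx) hF hS2 hS3
    refine this.trans (Nat.mul_le_mul_right _ ?_)
    exact Nat.pow_le_pow_right (by positivity) hS1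

end

end Pool.Agent.W861.TF
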