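import Pool.Agent.W861.TF.Core

set_option autoImplicit false

open scoped Pointwise

namespace Pool.Agent.W861.TF

theorem prog_eq_image {G : Type*} [AddCommGroup G] {d : ℕ} (a : G) (v : Fin d → G)
    (N : Fin d → ℕ) :
    prog a v N = (fun k : (∀ i : Fin d, Fin (N i)) => a + ∑ i, (k i : ℕ) • v i) '' Set.univ := by
  ext x
  constructor
  · rintro ⟨k, hk, rfl⟩
    exact ⟨fun i => ⟨k i, hk i⟩, trivial, rfl⟩
  · rintro ⟨k, -, rfl⟩
    exact ⟨fun i => (k i : ℕ), fun i => (k i).2, rfl⟩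

theorem prog_finite {G : Type*} [AddCommGroup G] {d : ℕ} (a : G) (v : Fin d → G)
    (N : Fin d → ℕ) : (prog a v N).Finite := by
  rw [prog_eq_image]
  exact Set.toFinite _

theorem prog_ncard_le {G : Type*} [AddCommGroup G] {d : ℕ} (a : G) (v : Fin d → G)
    (N : Fin d → ℕ) : (prog a v N).ncard ≤ ∏ i, N i := by
  rw [prog_eq_image]
  refine (Set.ncard_image_le Set.finite_univ).trans ?_
  rw [Set.ncard_univ]
  simp

theorem ncard_le_add_self {G : Type*} [AddCommGroup G] (P : Set G) (hP : P.Finite) :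
    P.ncard ≤ (P + P).ncard := by
  rcases P.eq_empty_or_nonempty with h | ⟨x, hx⟩
  · simp [h]
  · calc P.ncard = ((fun y => x + y) '' P).ncard :=
        (Set.ncard_image_of_injective _ (add_right_injective x)).symm
      _ ≤ (P + P).ncard := by
        apply Set.ncard_le_ncard _ (hP.add hP)
        rintro _ ⟨y, hy, rfl⟩
        exact Set.add_mem_add hx hy

/-- doubling of a progression of rank `d` is at most `2 ^ d`. -/
theorem prog_add_ncard_le {G : Type*} [AddCommGroup G] {d : ℕ} (a : G) (v : Fin d → G)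
    (N : Fin d → ℕ) : (prog a v N + prog a v N).ncard ≤ 2 ^ d * (prog a v N).ncard := by
  classical
  have hsub : prog a v N + prog a v N ⊆
      ⋃ S ∈ (Finset.univ : Finset (Finset (Fin d))),
        (fun y => (a + ∑ i ∈ S, N i • v i) + y) '' prog a v N := by
    rintro _ ⟨x, ⟨k, hk, rfl⟩, y, ⟨k', hk', rfl⟩, rfl⟩
    simp only [Finset.mem_univ, Set.iUnion_true, Set.mem_iUnion]
    refine ⟨Finset.univ.filter (fun i => N i ≤ k i + k' i), a + ∑ i,
      (if N i ≤ k i + k' i then k i + k' i - N i else k i + k' i) • v i, ?_, ?_⟩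
    · refine ⟨_, fun i => ?_, rfl⟩
      have h1 := hk i
      have h2 := hk' i
      split_ifs <;> omega
    · simp only
      have : ∑ i, (if N i ≤ k i + k' i then k i + k' i - N i else k i + k' i) • v i +
          ∑ i ∈ Finset.univ.filter (fun i => N i ≤ k i + k' i), N i • v i =
          ∑ i, k i • v i + ∑ i, k' i • v i := by
        rw [Finset.sum_filter, ← Finset.sum_add_distrib, ← Finset.sum_add_distrib]
        apply Finset.sum_congr rfl
        intro i _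
        split_ifs with h
        · rw [← add_smul, ← add_smul]; congr 1; omega
        · rw [← add_smul, add_zero]
      calc a + ∑ i ∈ Finset.univ.filter (fun i => N i ≤ k i + k' i), N i • v i +
            (a + ∑ i, (if N i ≤ k i + k' i then k i + k' i - N i else k i + k' i) • v i)
          = a + a + (∑ i, (if N i ≤ k i + k' i then k i + k' i - N i else k i + k' i) • v i +
          ∑ i ∈ Finset.univ.filter (fun i => N i ≤ k i + k' i), N i • v i) := by abel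
        _ = _ := by rw [this]; abel
  have hfin : (⋃ S ∈ (Finset.univ : Finset (Finset (Fin d))),
        (fun y => (a + ∑ i ∈ S, N i • v i) + y) '' prog a v N).Finite :=
    Set.Finite.biUnion (Finset.finite_toSet _) (fun S _ => (prog_finite a v N).image _)
  refine (Set.ncard_le_ncard hsub hfin).trans ?_
  refine (Finset.set_ncard_biUnion_le _ _).trans ?_
  calc ∑ S ∈ (Finset.univ : Finset (Finset (Fin d))),
        ((fun y => (a + ∑ i ∈ S, N i • v i) + y) '' prog a v N).ncard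
      ≤ ∑ S ∈ (Finset.univ : Finset (Finset (Fin d))), (prog a v N).ncard := by
        apply Finset.sum_le_sum
        intro S _
        exact Set.ncard_image_le (prog_finite a v N)
    _ = 2 ^ d * (prog a v N).ncard := by simp

theorem key1 (E : ℕ) : 2 ^ 80 * 5 ^ (96 * E) < (2 ^ (14 + 48 * E) + 1) ^ 6 := by
  have h1 : (5 : ℕ) ^ (96 * E) ≤ 2 ^ (288 * E) := by
    calc (5 : ℕ) ^ (96 * E) ≤ 8 ^ (96 * E) := Nat.pow_le_pow_left (by norm_num) _
      _ = 2 ^ (288 * E) := by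
        rw [show (8 : ℕ) = 2 ^ 3 by norm_num, ← pow_mul]; congr 1; ring
  calc 2 ^ 80 * 5 ^ (96 * E) ≤ 2 ^ 80 * 2 ^ (288 * E) := Nat.mul_le_mul_left _ h1
    _ = 2 ^ (80 + 288 * E) := by rw [pow_add]
    _ < 2 ^ (84 + 288 * E) := Nat.pow_lt_pow_right (by norm_num) (by omega)
    _ = (2 ^ (14 + 48 * E)) ^ 6 := by rw [← pow_mul]; congr 1; ring
    _ ≤ (2 ^ (14 + 48 * E) + 1) ^ 6 := Nat.pow_le_pow_left (by omega) _

theorem large_contra (E h s Fc X Ac : ℕ) (hs : s = 14 + 48 * E) (hh : 1 ≤ h) (hF : 0 < Fc)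
    (hcon : Ac ≤ 5 ^ (E * (48 * h)) * Fc) (hX1 : X ≤ 5 ^ (E * (48 * h)) * Ac)
    (hX2 : Fc * (2 ^ s + 1) ^ (6 * h) ≤ 2 ^ (48 * h + 2 * (16 * h)) * X) : False := by
  subst hs
  have h4 : Fc * (2 ^ (14 + 48 * E) + 1) ^ (6 * h) ≤
      Fc * (2 ^ (80 * h) * 5 ^ (96 * E * h)) := by
    calc Fc * (2 ^ (14 + 48 * E) + 1) ^ (6 * h) ≤ 2 ^ (48 * h + 2 * (16 * h)) * X := hX2
      _ ≤ 2 ^ (48 * h + 2 * (16 * h)) * (5 ^ (E * (48 * h)) *
          (5 ^ (E * (48 * h)) * Fc)) :=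
        Nat.mul_le_mul_left _ (hX1.trans (Nat.mul_le_mul_left _ hcon))
      _ = Fc * (2 ^ (80 * h) * 5 ^ (96 * E * h)) := by
        rw [show 48 * h + 2 * (16 * h) = 80 * h by ring,
          show 96 * E * h = E * (48 * h) + E * (48 * h) by ring, pow_add 5]
        ring
  have h5 := Nat.le_of_mul_le_mul_left h4 hF
  have h6 : (2 ^ 80 * 5 ^ (96 * E)) ^ h < ((2 ^ (14 + 48 * E) + 1) ^ 6) ^ h :=
    Nat.pow_lt_pow_left (key1 E) (by omega)
  rw [mul_pow, ← pow_mul, ← pow_mul, ← pow_mul] at h6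
  exact absurd h5 (not_le.mpr h6)

theorem small_contra (E h s M R q p Fc Ac : ℕ) (hh : 1 ≤ h) (hq : 1 ≤ q)
    (hM : M = 5 ^ (3 * E) * 2 ^ (2 ^ s * 2 ^ s)) (hR : R = 578 * M) (hRpos : 1 ≤ R)
    (hp2 : p ≤ 2 * q ^ (48 * h)) (hsize : (R * q + 1) ^ (48 * h) ≤ p * Ac)
    (hcon : Ac ≤ 5 ^ (E * (48 * h)) * Fc)
    (hC : Fc ≤ (2 ^ (2 ^ s)) ^ (2 ^ s * (16 * h)) * (16 * R + 1) ^ (2 * (16 * h))) : False := by
  have hq0 : 0 < q ^ (48 * h) := by positivity
  have h7 : R ^ (48 * h) ≤ 2 * Ac := by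
    have : q ^ (48 * h) * R ^ (48 * h) ≤ q ^ (48 * h) * (2 * Ac) := by
      calc q ^ (48 * h) * R ^ (48 * h) = (R * q) ^ (48 * h) := by rw [mul_pow]; ring
        _ ≤ (R * q + 1) ^ (48 * h) := Nat.pow_le_pow_left (by omega) _
        _ ≤ p * Ac := hsize
        _ ≤ (2 * q ^ (48 * h)) * Ac := Nat.mul_le_mul_right _ hp2
        _ = _ := by ring
    exact Nat.le_of_mul_le_mul_left this hq0
  have h8a : 5 ^ (E * (48 * h)) * ((2 ^ (2 ^ s)) ^ (2 ^ s * (16 * h)) *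
      (17 * R) ^ (2 * (16 * h))) = (M * 289 * R ^ 2) ^ (16 * h) := by
    have e1 : (5 : ℕ) ^ (E * (48 * h)) = (5 ^ (3 * E)) ^ (16 * h) := by
      rw [← pow_mul]; congr 1; ring
    have e2 : ((2 : ℕ) ^ (2 ^ s)) ^ (2 ^ s * (16 * h)) = (2 ^ (2 ^ s * 2 ^ s)) ^ (16 * h) := by
      rw [← pow_mul, ← pow_mul]; congr 1; ring
    have e3 : (17 * R) ^ (2 * (16 * h)) = (289 * R ^ 2) ^ (16 * h) := by
      rw [pow_mul]; congr 1; ring
    rw [e1, e2, e3, ← mul_pow, ← mul_pow, hM]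
    congr 1; ring
  have h8 : R ^ (48 * h) ≤ 2 * (M * 289 * R ^ 2) ^ (16 * h) := by
    calc R ^ (48 * h) ≤ 2 * Ac := h7
      _ ≤ 2 * (5 ^ (E * (48 * h)) * Fc) := Nat.mul_le_mul_left _ hcon
      _ ≤ 2 * (5 ^ (E * (48 * h)) * ((2 ^ (2 ^ s)) ^ (2 ^ s * (16 * h)) *
            (16 * R + 1) ^ (2 * (16 * h)))) :=
          Nat.mul_le_mul_left _ (Nat.mul_le_mul_left _ hC)
      _ ≤ 2 * (5 ^ (E * (48 * h)) * ((2 ^ (2 ^ s)) ^ (2 ^ s * (16 * h)) *
            (17 * R) ^ (2 * (16 * h)))) := by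
          apply Nat.mul_le_mul_left _ (Nat.mul_le_mul_left _ (Nat.mul_le_mul_left _ _))
          exact Nat.pow_le_pow_left (by omega) _
      _ = 2 * (M * 289 * R ^ 2) ^ (16 * h) := by rw [h8a]
  have h9 : 2 ^ (16 * h) * (M * 289 * R ^ 2) ^ (16 * h) = R ^ (48 * h) := by
    rw [← mul_pow, show 48 * h = 3 * (16 * h) by ring, pow_mul R 3]
    congr 1
    have : 2 * (M * 289 * R ^ 2) = (578 * M) * R ^ 2 := by ring
    rw [this, ← hR]
    ring
  have h10 : R ^ (48 * h) * 2 ^ (16 * h) ≤ R ^ (48 * h) * 2 := by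
    calc R ^ (48 * h) * 2 ^ (16 * h) ≤ (2 * (M * 289 * R ^ 2) ^ (16 * h)) * 2 ^ (16 * h) :=
          Nat.mul_le_mul_right _ h8
      _ = 2 * (2 ^ (16 * h) * (M * 289 * R ^ 2) ^ (16 * h)) := by ring
      _ = R ^ (48 * h) * 2 := by rw [h9]; ring
  have h11 := Nat.le_of_mul_le_mul_left h10 (by positivity)
  have h12 : 2 ^ 2 ≤ 2 ^ (16 * h) := Nat.pow_le_pow_right (by norm_num) (by omega)
  omega

/-- natural number form of the main theorem. -/
theorem nat_final (hex : S_EX) (hdb : S_DB) (hbb : S_BB) (h1 : S_AVG1) (h2 : S_AVG2)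
    (h3 : S_AVG3) (hg : S_GR) (hc : S_C3) (E T0 : ℕ) :
    ∃ (n : ℕ) (G : Type) (_ : AddCommGroup G) (A : Set G), T0 ≤ n ∧
      (∀ (k : ℕ) (x : G), k ≠ 0 → k • x = 0 → x = 0) ∧ A.Finite ∧ A.Nonempty ∧
      (A + A).ncard ≤ 5 ^ n * A.ncard ∧
      ∀ (d : ℕ) (x0 : G) (v : Fin d → G) (N : Fin d → ℕ),
        (∏ i, N i ≤ 5 ^ (E * n) * A.ncard ∨
          (prog x0 v N + prog x0 v N).ncard ≤ 5 ^ (E * n) * A.ncard) →
        5 ^ (E * n) * (A ∩ prog x0 v N).ncard < A.ncard := by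
  classical
  obtain ⟨s, hs⟩ : ∃ s, s = 14 + 48 * E := ⟨_, rfl⟩
  obtain ⟨M, hM⟩ : ∃ M, M = 5 ^ (3 * E) * 2 ^ (2 ^ s * 2 ^ s) := ⟨_, rfl⟩
  have hMpos : 1 ≤ M := by rw [hM]; exact Nat.mul_pos (by positivity) (by positivity)
  obtain ⟨R, hR⟩ : ∃ R, R = 578 * M := ⟨_, rfl⟩
  have hRpos : 1 ≤ R := by omega
  obtain ⟨τ, q, p, hτ, hq, hp, hp1, hp2, a, hsv, hsb⟩ := hex s R T0 hRpos
  have : Fact p.Prime := ⟨hp⟩
  have : NeZero p := ⟨hp.ne_zero⟩
  obtain ⟨hfin, hne, hdoub, hsize⟩ := hdb p (48 * 4 ^ τ) (R * q) a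
  refine ⟨48 * 4 ^ τ, Lam p a, inferInstance, Abox p a (R * q), ?_, ?_, hfin, hne, hdoub, ?_⟩
  · have : τ < 4 ^ τ := Nat.lt_pow_self (by norm_num)
    omega
  · intro k x hk hx
    have hx' : (k • x : Lam p a).1 = 0 := by rw [hx]; rfl
    have hx2 : k • (x : Fin (48 * 4 ^ τ) → ℤ) = 0 := hx'
    have hx3 : (x : Fin (48 * 4 ^ τ) → ℤ) = 0 := by
      rcases smul_eq_zero.mp hx2 with h | h
      · exact absurd h hk
      · exact h
    exact Subtype.ext hx3
  · intro d x0 v N hX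
    by_contra hcon
    push Not at hcon
    have hhpos : 1 ≤ 4 ^ τ := Nat.one_le_pow _ _ (by norm_num)
    obtain ⟨F, hFcoe⟩ : ∃ F : Finset (Lam p a),
        (F : Set (Lam p a)) = Abox p a (R * q) ∩ prog x0 v N :=
      ⟨(hfin.inter_of_left (prog x0 v N)).toFinset, by simp⟩
    have hFcard : F.card = (Abox p a (R * q) ∩ prog x0 v N).ncard := by
      rw [← hFcoe, Set.ncard_coe_finset]
    rw [← hFcard] at hcon
    have hApos : 0 < (Abox p a (R * q)).ncard := by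
      rw [Set.ncard_pos hfin]; exact hne
    have hFpos : 0 < F.card := by
      rcases Nat.eq_zero_or_pos F.card with h0 | h0
      · rw [h0] at hcon
        omega
      · exact h0
    have hmono : 2 ^ (48 * 4 ^ τ + 16 * 4 ^ τ) ≤ 2 ^ (48 * 4 ^ τ + 2 * (16 * 4 ^ τ)) :=
      Nat.pow_le_pow_right (by norm_num) (by omega)
    have hPX : (prog x0 v N).ncard ≤ 5 ^ (E * (48 * 4 ^ τ)) * (Abox p a (R * q)).ncard := by
      rcases hX with hX | hX
      · exact (prog_ncard_le x0 v N).trans hX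
      · exact (ncard_le_add_self _ (prog_finite x0 v N)).trans hX
    have hs1 : 1 ≤ s := by omega
    rcases core hbb h1 h2 h3 hg hc hs1 hRpos hq a hsv hsb d x0 v N F
      (by rw [hFcoe]; exact Set.inter_subset_right)
      (by rw [hFcoe]; exact Set.inter_subset_left) with hA | ⟨hB1, hB2⟩ | hC
    · exact large_contra E (4 ^ τ) s _ _ _ hs hhpos hFpos hcon hPX hA
    · rcases hX with hX | hX
      · exact large_contra E (4 ^ τ) s _ _ _ hs hhpos hFpos hcon hX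
          (hB1.trans (Nat.mul_le_mul_right _ hmono))
      · exact large_contra E (4 ^ τ) s _ _ _ hs hhpos hFpos hcon hX
          (hB2.trans (Nat.mul_le_mul_right _ hmono))
    · exact small_contra E (4 ^ τ) s M R q p _ _ hhpos hq hM hR hRpos hp2 hsize hcon hC

end Pool.Agent.W861.TF
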