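import Pool.Agent.W861.TF.Final

set_option autoImplicit false

open scoped Pointwise

namespace Pool.Agent.W861.TF

/-- real number form of the main theorem, from the natural number form. -/
theorem real_final (hex : S_EX) (hdb : S_DB) (hbb : S_BB) (h1 : S_AVG1) (h2 : S_AVG2)
    (h3 : S_AVG3) (hg : S_GR) (hc3 : S_C3) (C c : ℝ) (hC : 0 < C) :
    ∃ (G : Type) (_ : AddCommGroup G) (A : Set G) (K : ℝ),
      (∀ (n : ℕ) (x : G), n ≠ 0 → n • x = 0 → x = 0) ∧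
      A.Finite ∧ A.Nonempty ∧ 1 ≤ K ∧ ((A + A).ncard : ℝ) ≤ K * (A.ncard : ℝ) ∧
      ∀ (d : ℕ) (a : G) (v : Fin d → G) (N : Fin d → ℕ) (P : Set G),
        P = {x : G | ∃ k : Fin d → ℕ, (∀ i, k i < N i) ∧ x = a + ∑ i, k i • v i} →
        (((∏ i, N i : ℕ) : ℝ) ≤ C * K ^ c * (A.ncard : ℝ) ∨
          ((P + P).ncard : ℝ) ≤ C * K ^ c * (A.ncard : ℝ) ∨
          ((d : ℝ) ≤ C * Real.log K ∧ (P.ncard : ℝ) ≤ C * K ^ c * (A.ncard : ℝ))) →
        ((A ∩ P).ncard : ℝ) < C⁻¹ * K ^ (-c) * (A.ncard : ℝ) := by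
  obtain ⟨E, hE⟩ := exists_nat_ge (c + C + 1)
  obtain ⟨T0, hT0⟩ := exists_nat_ge (C + 1)
  obtain ⟨n, G, inst, A, hn, htf, hfin, hne, hdoub, hmain⟩ :=
    nat_final hex hdb hbb h1 h2 h3 hg hc3 E T0
  have hK1 : (1 : ℝ) ≤ (5 : ℝ) ^ n := one_le_pow₀ (by norm_num)
  have hKpos : (0 : ℝ) < (5 : ℝ) ^ n := by positivity
  have hCn : C ≤ (5 : ℝ) ^ n := by
    have h5 : (n : ℝ) ≤ (5 : ℝ) ^ n := by
      have := (Nat.lt_pow_self (n := n) (by norm_num : 1 < 5)).le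
      exact_mod_cast this
    have h6 : (T0 : ℝ) ≤ n := by exact_mod_cast hn
    linarith
  -- the key estimate
  have hkey : C * ((5 : ℝ) ^ n) ^ c * ((5 : ℝ) ^ n) ^ C ≤ (5 : ℝ) ^ (E * n) := by
    have e1 : ((5 : ℝ) ^ n) ^ c * ((5 : ℝ) ^ n) ^ C = ((5 : ℝ) ^ n) ^ (c + C) :=
      (Real.rpow_add hKpos _ _).symm
    calc C * ((5 : ℝ) ^ n) ^ c * ((5 : ℝ) ^ n) ^ C = C * ((5 : ℝ) ^ n) ^ (c + C) := by
          rw [mul_assoc, e1]
      _ ≤ (5 : ℝ) ^ n * ((5 : ℝ) ^ n) ^ (c + C) :=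
          mul_le_mul_of_nonneg_right hCn (Real.rpow_nonneg hKpos.le _)
      _ = ((5 : ℝ) ^ n) ^ (c + C + 1) := by
          rw [Real.rpow_add hKpos (c + C) 1, Real.rpow_one]; ring
      _ ≤ ((5 : ℝ) ^ n) ^ (E : ℝ) := Real.rpow_le_rpow_of_exponent_le hK1 hE
      _ = (5 : ℝ) ^ (E * n) := by
          rw [Real.rpow_natCast, ← pow_mul, mul_comm n E]
  have hKC1 : (1 : ℝ) ≤ ((5 : ℝ) ^ n) ^ C := Real.one_le_rpow hK1 hC.le
  have hKc : (0 : ℝ) < ((5 : ℝ) ^ n) ^ c := Real.rpow_pos_of_pos hKpos _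
  have hkey2 : C * ((5 : ℝ) ^ n) ^ c ≤ (5 : ℝ) ^ (E * n) := by
    refine le_trans ?_ hkey
    exact le_mul_of_one_le_right (by positivity) hKC1
  have hAnn : (0 : ℝ) ≤ (A.ncard : ℝ) := Nat.cast_nonneg _
  refine ⟨G, inst, A, (5 : ℝ) ^ n, htf, hfin, hne, hK1, by exact_mod_cast hdoub, ?_⟩
  intro d a v N P hP hX
  have hPp : P = prog a v N := hP
  rw [hPp] at hX ⊢
  have hX' : ∏ i, N i ≤ 5 ^ (E * n) * A.ncard ∨
      (prog a v N + prog a v N).ncard ≤ 5 ^ (E * n) * A.ncard := by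
    rcases hX with hX | hX | ⟨hd, hX⟩
    · left
      have : ((∏ i, N i : ℕ) : ℝ) ≤ (5 : ℝ) ^ (E * n) * (A.ncard : ℝ) :=
        hX.trans (mul_le_mul_of_nonneg_right hkey2 hAnn)
      exact_mod_cast this
    · right
      have : ((prog a v N + prog a v N).ncard : ℝ) ≤ (5 : ℝ) ^ (E * n) * (A.ncard : ℝ) :=
        hX.trans (mul_le_mul_of_nonneg_right hkey2 hAnn)
      exact_mod_cast this
    · right
      have h2d : (2 : ℝ) ^ d ≤ ((5 : ℝ) ^ n) ^ C := by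
        rw [Real.rpow_def_of_pos hKpos, ← Real.rpow_natCast,
          Real.rpow_def_of_pos (by norm_num : (0 : ℝ) < 2)]
        apply Real.exp_le_exp.mpr
        have hl2 : Real.log 2 ≤ 1 := by
          have := Real.log_two_lt_d9
          linarith
        have hl0 : 0 ≤ Real.log 2 := Real.log_nonneg (by norm_num)
        have hd0 : (0 : ℝ) ≤ d := Nat.cast_nonneg _
        calc Real.log 2 * (d : ℝ) ≤ 1 * (d : ℝ) := mul_le_mul_of_nonneg_right hl2 hd0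
          _ = d := one_mul _
          _ ≤ C * Real.log ((5 : ℝ) ^ n) := hd
          _ = Real.log ((5 : ℝ) ^ n) * C := mul_comm _ _
      have h3 : ((prog a v N + prog a v N).ncard : ℝ) ≤
          (2 : ℝ) ^ d * ((prog a v N).ncard : ℝ) := by
        exact_mod_cast prog_add_ncard_le a v N
      have : ((prog a v N + prog a v N).ncard : ℝ) ≤ (5 : ℝ) ^ (E * n) * (A.ncard : ℝ) := by
        calc ((prog a v N + prog a v N).ncard : ℝ)
            ≤ (2 : ℝ) ^ d * ((prog a v N).ncard : ℝ) := h3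
          _ ≤ ((5 : ℝ) ^ n) ^ C * (C * ((5 : ℝ) ^ n) ^ c * (A.ncard : ℝ)) :=
              mul_le_mul h2d hX (Nat.cast_nonneg _) (by positivity)
          _ = (C * ((5 : ℝ) ^ n) ^ c * ((5 : ℝ) ^ n) ^ C) * (A.ncard : ℝ) := by ring
          _ ≤ (5 : ℝ) ^ (E * n) * (A.ncard : ℝ) := mul_le_mul_of_nonneg_right hkey hAnn
      exact_mod_cast this
  have hres := hmain d a v N hX'
  have hres' : (5 : ℝ) ^ (E * n) * ((A ∩ prog a v N).ncard : ℝ) < (A.ncard : ℝ) := by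
    exact_mod_cast hres
  have hpos : 0 < C * ((5 : ℝ) ^ n) ^ c := by positivity
  have h4 : C * ((5 : ℝ) ^ n) ^ c * ((A ∩ prog a v N).ncard : ℝ) < (A.ncard : ℝ) :=
    lt_of_le_of_lt (mul_le_mul_of_nonneg_right hkey2 (Nat.cast_nonneg _)) hres'
  rw [Real.rpow_neg hKpos.le, ← mul_inv]
  rw [inv_mul_eq_div, lt_div_iff₀ hpos]
  linarith

end Pool.Agent.W861.TF
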