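import Pool.Agent.W861.TF.RealForm
import Pool.Agent.W861.TF.BB
import Pool.Agent.W991.TF.NP
import Pool.Agent.W991.TF.GR
import Pool.Agent.W503.TF.Had
import Pool.Agent.W503.TF.Modp
import Pool.Agent.W320.TF.HC
import Pool.Agent.W933.TF.Alg
import Pool.Agent.W557.TF.Cert
import Pool.Agent.W816.TF.CC
import Pool.Agent.W816.TF.FM
import Pool.Agent.W118.TF.PACK
import Pool.Agent.W118.TF.DB
import Pool.Agent.W597.TF.Avg2
import Pool.Agent.W930.TF.Avg3
import Pool.Agent.W330.TF.C3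
import Pool.Agent.W118.TF.EX
import Pool.Agent.W976.TF.Avg1

/-!
MP_86f7a7_co, partial answer to Q1 (towards its negation).

For all `C > 0` and all real `c` there is a finite nonempty set `A` in a torsion-free abelian group
with `|A + A| ≤ K |A|` such that no progression `P` of ANY rank with
`∏ N_i ≤ C K^c |A|` (in particular no proper progression with `|P| ≤ C K^c |A|`), and no
progression of any rank with `|P + P| ≤ C K^c |A|`, and no progression of rank at most `C log K`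
with `|P| ≤ C K^c |A|`, meets `A` in at least `C⁻¹ K^(-c) |A|` points.

`A` is the set of points of sup norm at most `R q` of a random integer lattice
`{x ∈ ℤ^n : Σ a_i x_i = 0 mod p}` of index about `q^n`, with `K = 5^n`.
-/

set_option autoImplicit false

open scoped Pointwise

namespace Pool.Agent.W861.TF.Withdrawn

theorem result (C c : ℝ) (hC : 0 < C) :
    ∃ (G : Type) (_ : AddCommGroup G) (A : Set G) (K : ℝ),
      (∀ (n : ℕ) (x : G), n ≠ 0 → n • x = 0 → x = 0) ∧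
      A.Finite ∧ A.Nonempty ∧ 1 ≤ K ∧ ((A + A).ncard : ℝ) ≤ K * (A.ncard : ℝ) ∧
      ∀ (d : ℕ) (a : G) (v : Fin d → G) (N : Fin d → ℕ) (P : Set G),
        P = {x : G | ∃ k : Fin d → ℕ, (∀ i, k i < N i) ∧ x = a + ∑ i, k i • v i} →
        (((∏ i, N i : ℕ) : ℝ) ≤ C * K ^ c * (A.ncard : ℝ) ∨
          ((P + P).ncard : ℝ) ≤ C * K ^ c * (A.ncard : ℝ) ∨
          ((d : ℝ) ≤ C * Real.log K ∧ (P.ncard : ℝ) ≤ C * K ^ c * (A.ncard : ℝ))) →
        ((A ∩ P).ncard : ℝ) < C⁻¹ * K ^ (-c) * (A.ncard : ℝ) := by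
  have hmod : Pool.Agent.W861.TF.S_MOD := Pool.Agent.W503.TF.modp
  have hex : Pool.Agent.W861.TF.S_EX :=
    Pool.Agent.W118.TF.ex
      (Pool.Agent.W816.TF.fm Pool.Agent.W557.TF.cert
        (Pool.Agent.W816.TF.cc hmod _root_.W320.TF.hc) Pool.Agent.W503.TF.had)
      (Pool.Agent.W503.TF.sv hmod)
  have hbb : Pool.Agent.W861.TF.S_BB :=
    Pool.Agent.W861.TF.bb Pool.Agent.W933.TF.alg Pool.Agent.W991.TF.NP.np
  exact Pool.Agent.W861.TF.real_final hex Pool.Agent.W118.TF.db hbb Pool.Agent.W976.TF.avg1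
    Pool.Agent.W597.TF.avg2 Pool.Agent.W930.TF.avg3 Pool.Agent.W991.TF.GR.gr
    (Pool.Agent.W330.TF.c3 Pool.Agent.W118.TF.pack) C c hC

end Pool.Agent.W861.TF.Withdrawn
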